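import Pool.Agent.Helper21.EM.Stmts3

/-!
# HCM and LCM: the commutants
-/

set_option autoImplicit false

open NumberField MU MT MR HD

namespace EM

/-- HCM: the commutant of the Lie algebra of the Mumford-Tate group. -/
theorem st_HCM (hmtx : ST_MTX) (hhk : ST_HKR) : ST_HCM := by
  obtain ⟨hk, ha, hb, hs⟩ := hmtx
  intro F _ _ n w h M hw
  have h2 : ∀ X, X ∈ HodgeEnd M ↔ M.IsHodge (mtx X) := by
    intro X
    unfold RMot.IsHodge
    refine forall_congr' fun z => ?_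
    rw [hb ℂ n X]
    exact (ha ℂ n (X.map (algebraMap ℚ ℂ)) (hz M.hodge h w z)).symm
  refine ⟨?_, h2⟩
  ext X
  rw [h2]
  constructor
  · intro hX
    exact hhk F n w h M hw 1 1 (mtx X) fun A hA => (hk ℚ n X A).mpr (hX A hA)
  · intro hX A hA
    exact (hk ℚ n X A).mp (hA 1 1 (mtx X) hX)

/-- LCM: the commutant of the monodromy Lie algebra. -/
theorem st_LCM (hmtx : ST_MTX) (hkt : ST_KTR) (htk : ST_TKR) (hhc : ST_HCM) : ST_LCM := by
  obtain ⟨hk, ha, hb, hs⟩ := hmtx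
  intro F _ _ n w h M l _ hw h11
  obtain ⟨-, h2⟩ := hhc F n w h M hw
  -- `mtx` and the spans
  have hmem : ∀ X : Matrix (Fin n) (Fin n) ℚ_[l],
      mtx X ∈ hodgeSpan M ℚ_[l] 1 1 ↔ X ∈ spn ℚ_[l] (HodgeEnd M) := by
    let e : Matrix (Fin n) (Fin n) ℚ_[l] →ₗ[ℚ_[l]] Tensor n 1 1 ℚ_[l] :=
      { toFun := mtx
        map_add' := fun _ _ => rfl
        map_smul' := fun _ _ => rfl }
    have hinj : Function.Injective e := by
      intro X Y hXY
      ext i j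
      exact congrFun (congrFun hXY (fun _ => i)) (fun _ => j)
    have hset : {s : Tensor n 1 1 ℚ_[l] | ∃ t : Tensor n 1 1 ℚ, M.IsHodge t ∧ s = t.base ℚ_[l]} =
        e '' {B | ∃ A ∈ HodgeEnd M, B = A.map (algebraMap ℚ ℚ_[l])} := by
      ext s
      constructor
      · rintro ⟨t, ht, rfl⟩
        obtain ⟨Y, rfl⟩ := hs ℚ n t
        exact ⟨Y.map (algebraMap ℚ ℚ_[l]), ⟨Y, (h2 Y).mpr ht, rfl⟩, (hb ℚ_[l] n Y).symm⟩
      · rintro ⟨_, ⟨Y, hY, rfl⟩, rfl⟩
        exact ⟨mtx Y, (h2 Y).mp hY, (hb ℚ_[l] n Y).symm⟩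
    intro X
    have h3 : hodgeSpan M ℚ_[l] 1 1 = (spn ℚ_[l] (HodgeEnd M)).map e := by
      unfold hodgeSpan spn
      rw [hset, Submodule.map_span]
    rw [h3]
    constructor
    · rintro ⟨Y, hY, hYX⟩
      rw [← hinj hYX]
      exact hY
    · intro hX
      exact ⟨X, hX, rfl⟩
  ext X
  rw [← hmem, ← h11]
  constructor
  · intro hX
    exact hkt F n w h M l 1 1 (mtx X) fun A hA => (hk ℚ_[l] n X A).mpr (hX A hA)
  · intro hX A hA
    exact (hk ℚ_[l] n X A).mp (htk F n w h M l 1 1 (mtx X) hX A hA)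

end EM
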