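import Pool.Agent.Helper21.EM.Stmts3
import Pool.Agent.Helper72.HG.ENG
import Pool.Agent.Helper6.HG.Nd
import Pool.Agent.Helper74.NA.Nil

/-!
# LTR: the algebra generated by the monodromy Lie algebra of a semisimple representation
-/

set_option autoImplicit false

open NumberField MU MT MR HD

namespace EM

section Mot

variable {F : Type} [Field F] [NumberField F] {n w : ℕ} {h : Fin n → ℕ}

theorem mem_glie57 (M : RMot F n w h) (l : ℕ) [Fact l.Prime] (A : Matrix (Fin n) (Fin n) ℚ_[l]) :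
    A ∈ glie M l ↔ ∀ H : Subgroup (Gal F), IsOpen (H : Set (Gal F)) →
      A ∈ LieZ (H.map (M.ρ l)) := by
  unfold glie
  rw [Submodule.mem_iInf]
  refine forall_congr' fun H => ?_
  rw [Submodule.mem_iInf]

/-- the monodromy Lie algebra is stable under the Galois group -/
theorem glie_conj57 (M : RMot F n w h) (l : ℕ) [Fact l.Prime] (g : Gal F)
    (A : Matrix (Fin n) (Fin n) ℚ_[l]) (hA : A ∈ glie M l) :
    mat (M.ρ l) g * A * mat (M.ρ l) g⁻¹ ∈ glie M l := by
  rw [mem_glie57] at hA ⊢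
  intro H hH
  obtain ⟨H₁, hle, hnor, hop, -⟩ := exists_core H hH
  refine HG.lieZ_mono (Subgroup.map_mono hle) ?_
  have h1 := (st_ZAR ℚ_[l] n (H₁.map (M.ρ l))).2.1 (M.ρ l g) (by
    rintro _ ⟨s, hs, rfl⟩
    exact ⟨g * s * g⁻¹, hnor.conj_mem s hs g, by simp⟩) A (hA H₁ hop)
  have h2 : mat (M.ρ l) g⁻¹ = (((M.ρ l g)⁻¹ : Matrix.GeneralLinearGroup (Fin n) ℚ_[l]) :
      Matrix (Fin n) (Fin n) ℚ_[l]) := by
    show ((M.ρ l g⁻¹ : Matrix.GeneralLinearGroup (Fin n) ℚ_[l]) :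
      Matrix (Fin n) (Fin n) ℚ_[l]) = _
    rw [map_inv]
  rw [h2]
  exact h1

theorem mat_inv57 (M : RMot F n w h) (l : ℕ) [Fact l.Prime] (g : Gal F) :
    mat (M.ρ l) g⁻¹ * mat (M.ρ l) g = 1 := by
  rw [← map_mul, inv_mul_cancel, map_one]

/-- the algebra generated by the Lie algebra is stable under the Galois group -/
theorem adj_conj57 (M : RMot F n w h) (l : ℕ) [Fact l.Prime] (g : Gal F)
    (A : Matrix (Fin n) (Fin n) ℚ_[l])
    (hA : A ∈ Algebra.adjoin ℚ_[l] (glie M l : Set (Matrix (Fin n) (Fin n) ℚ_[l]))) :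
    mat (M.ρ l) g * A * mat (M.ρ l) g⁻¹ ∈
      Algebra.adjoin ℚ_[l] (glie M l : Set (Matrix (Fin n) (Fin n) ℚ_[l])) := by
  have h1 := mat_inv57 M l g
  have h2 : mat (M.ρ l) g * mat (M.ρ l) g⁻¹ = 1 := by rw [← map_mul, mul_inv_cancel, map_one]
  induction hA using Algebra.adjoin_induction with
  | mem x hx => exact Algebra.subset_adjoin (glie_conj57 M l g x hx)
  | algebraMap r =>
    rw [← Algebra.commutes, mul_assoc, h2, mul_one]
    exact Subalgebra.algebraMap_mem _ r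
  | add x y _ _ hx hy =>
    rw [mul_add, add_mul]
    exact Subalgebra.add_mem _ hx hy
  | mul x y _ _ hx hy =>
    have h3 : mat (M.ρ l) g * (x * y) * mat (M.ρ l) g⁻¹ =
        (mat (M.ρ l) g * x * mat (M.ρ l) g⁻¹) * (mat (M.ρ l) g * y * mat (M.ρ l) g⁻¹) := by
      calc _ = mat (M.ρ l) g * x * 1 * y * mat (M.ρ l) g⁻¹ := by
            rw [mul_one]
            simp only [mul_assoc]
        _ = _ := by
            rw [← h1]
            simp only [mul_assoc]
    rw [h3]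
    exact Subalgebra.mul_mem _ hx hy

/-- the algebra generated by the Lie algebra preserves the stable subspaces -/
theorem adj_stab57 (M : RMot F n w h) (l : ℕ) [Fact l.Prime] (W : Submodule ℚ_[l] (Fin n → ℚ_[l]))
    (hW : ∀ g : Gal F, ∀ v ∈ W, (mat (M.ρ l) g).mulVec v ∈ W) (A : Matrix (Fin n) (Fin n) ℚ_[l])
    (hA : A ∈ Algebra.adjoin ℚ_[l] (glie M l : Set (Matrix (Fin n) (Fin n) ℚ_[l]))) :
    ∀ v ∈ W, A.mulVec v ∈ W := by
  induction hA using Algebra.adjoin_induction with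
  | mem x hx =>
    have h1 := (mem_glie57 M l x).mp hx ⊤ isOpen_univ
    refine HG.st_STB ℚ_[l] n (Subgroup.map (M.ρ l) ⊤) W ?_ x h1
    rintro _ ⟨g, _, rfl⟩ u hu
    exact hW g u hu
  | algebraMap r =>
    intro v hv
    rw [Algebra.algebraMap_eq_smul_one, Matrix.smul_mulVec, Matrix.one_mulVec]
    exact W.smul_mem r hv
  | add x y _ _ hx hy =>
    intro v hv
    rw [Matrix.add_mulVec]
    exact W.add_mem (hx v hv) (hy v hv)
  | mul x y _ _ hx hy =>
    intro v hv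
    rw [← Matrix.mulVec_mulVec]
    exact hx _ (hy v hv)

end Mot

/-- LTR: the algebra generated by the monodromy Lie algebra. -/
theorem st_LTR : ST_LTR := by
  intro F _ _ n w h M l _ hss A hA hAB
  let K := ℚ_[l]
  let Alg := Algebra.adjoin K (glie M l : Set (Matrix (Fin n) (Fin n) K))
  let N : Submodule K (Matrix (Fin n) (Fin n) K) :=
    { carrier := {X | X ∈ Alg ∧ ∀ B ∈ Alg, (X * B).trace = 0}
      add_mem' := by
        rintro X Y ⟨hX, hX'⟩ ⟨hY, hY'⟩
        refine ⟨Alg.add_mem hX hY, fun B hB => ?_⟩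
        rw [Matrix.add_mul, Matrix.trace_add, hX' B hB, hY' B hB, add_zero]
      zero_mem' := ⟨Alg.zero_mem, fun B _ => by rw [Matrix.zero_mul, Matrix.trace_zero]⟩
      smul_mem' := by
        rintro c X ⟨hX, hX'⟩
        refine ⟨Alg.smul_mem hX c, fun B hB => ?_⟩
        rw [Matrix.smul_mul, Matrix.trace_smul, hX' B hB, smul_zero] }
  have hN : ∀ X, X ∈ N ↔ X ∈ Alg ∧ ∀ B ∈ Alg, (X * B).trace = 0 := fun X => Iff.rfl
  have hN0 : N = ⊥ := by
    refine HG.st_ENG K n N (Gal F) (mat (M.ρ l)) ?_ ?_ ?_ ?_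
    · rintro X ⟨hX, hX'⟩ Y ⟨hY, hY'⟩
      refine ⟨Alg.sub_mem (Alg.mul_mem hX hY) (Alg.mul_mem hY hX), fun B hB => ?_⟩
      rw [Matrix.sub_mul, Matrix.trace_sub, Matrix.mul_assoc, Matrix.mul_assoc,
        hX' _ (Alg.mul_mem hY hB), hY' _ (Alg.mul_mem hX hB), sub_zero]
    · rintro X ⟨hX, hX'⟩
      refine Pool.Agent.Helper74.NA.isNilpotent_of_trace X fun k hk => ?_
      obtain ⟨m, rfl⟩ : ∃ m, k = m + 1 := ⟨k - 1, by omega⟩
      rw [pow_succ']
      exact hX' _ (Alg.pow_mem hX m)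
    · rintro g X ⟨hX, hX'⟩
      refine ⟨adj_conj57 M l g X hX, fun B hB => ?_⟩
      have h1 : (mat (M.ρ l) g * X * mat (M.ρ l) g⁻¹ * B).trace =
          (X * (mat (M.ρ l) g⁻¹ * B * mat (M.ρ l) g)).trace := by
        rw [Matrix.mul_assoc, Matrix.mul_assoc, Matrix.trace_mul_comm, Matrix.mul_assoc]
      have h2 := adj_conj57 M l g⁻¹ B hB
      rw [inv_inv] at h2
      rw [h1]
      exact hX' _ h2
    · intro W hW
      exact ⟨fun X hX v hv => adj_stab57 M l W hW X hX.1 v hv, hss W hW⟩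
  have h1 : A ∈ N := ⟨hA, hAB⟩
  rw [hN0] at h1
  exact h1

end EM
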